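import Mathlib

/-!
# The excess of a truncated Hadamard matrix of order 32 can depend on the deleted row

For `H = [[A, A], [B, -B]]` with `A` the Sylvester matrix of order `16` and `B` another Hadamard matrix of order
`16`, deleting a row of the upper half leaves a maximum of at most `166`, while deleting a suitable row of the lower
half leaves a maximum of at least `168`.
-/

set_option autoImplicit false

namespace Pool.Agent.Results.MP_ba6bee_co.OrderThirtyTwo

open Finset

/-- `H` is a Hadamard matrix of order `n` -/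
def IsHadamard {n : ℕ} (H : Matrix (Fin n) (Fin n) ℤ) : Prop :=
  (∀ i j, H i j = 1 ∨ H i j = -1) ∧ H * H.transpose = (n : ℤ) • (1 : Matrix (Fin n) (Fin n) ℤ)

/-- the values `∑ j, |∑ i ≠ r, H i j * a i|` over the sign vectors `a` -/
def values {n : ℕ} (H : Matrix (Fin n) (Fin n) ℤ) (r : Fin n) : Set ℤ :=
  {x | ∃ a : Fin n → ℤ, (∀ i, a i = 1 ∨ a i = -1) ∧ x = ∑ j, |∑ i ∈ univ.erase r, H i j * a i|}

/-- `C(H, r)`, the largest of the values -/
noncomputable def C {n : ℕ} (H : Matrix (Fin n) (Fin n) ℤ) (r : Fin n) : ℤ := sSup (values H r)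

/-! ### The matrices -/

/-- the rows of the Sylvester matrix as bit masks of the entries `-1` -/
def rowsA : List ℕ := [0, 43690, 52428, 26214, 61680, 23130, 15420, 38550, 65280, 21930, 13260, 39270, 4080, 42330,
  49980, 27030]

/-- the rows of the second matrix as bit masks of the entries `-1` -/
def rowsB : List ℕ := [50240, 61165, 63350, 56795, 17351, 26986, 28913, 23132, 33784, 43349, 45262, 39523, 49215,
  60050, 62217, 55716]

/-- the sign matrix with given masks -/
def mat (L : List ℕ) (i j : Fin 16) : ℤ := if (L.getD i.val 0).testBit j.val then -1 else 1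

/-- the Sylvester matrix of order 16 -/
def A : Fin 16 → Fin 16 → ℤ := mat rowsA

/-- another Hadamard matrix of order 16 -/
def B : Fin 16 → Fin 16 → ℤ := mat rowsB

theorem mat_sign (L : List ℕ) (i j : Fin 16) : mat L i j = 1 ∨ mat L i j = -1 := by
  unfold mat; split_ifs <;> simp

theorem A_cols : ∀ j j' : Fin 16, ∑ i, A i j * A i j' = if j = j' then 16 else 0 := by decide +kernel

theorem B_cols : ∀ j j' : Fin 16, ∑ i, B i j * B i j' = if j = j' then 16 else 0 := by decide +kernel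

theorem B_rows : ∀ j j' : Fin 16, ∑ i, B j i * B j' i = if j = j' then 16 else 0 := by decide +kernel

theorem A_mul : ∀ j j' : Fin 16, ∃ c : Fin 16, ∀ i, A i j * A i j' = A i c := by decide +kernel

theorem A_sum : ∀ j : Fin 16, ∑ i, A i j = 16 ∨ ∑ i, A i j = 0 := by decide +kernel

/-! ### General facts -/

section general

variable {M : Fin 16 → Fin 16 → ℤ} {s : Fin 16 → ℤ}

theorem sum_sq (hM : ∀ j j' : Fin 16, ∑ i, M i j * M i j' = if j = j' then 16 else 0) :
    ∑ i, (∑ j, M i j * s j) ^ 2 = 16 * ∑ j, s j ^ 2 := by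
  have h1 : ∀ i, (∑ j, M i j * s j) ^ 2 = ∑ j, ∑ j', (s j * s j') * (M i j * M i j') := by
    intro i
    rw [sq, Finset.sum_mul_sum]
    refine Finset.sum_congr rfl fun j _ => Finset.sum_congr rfl fun j' _ => by ring
  simp_rw [h1]
  rw [Finset.sum_comm]
  rw [Finset.mul_sum]
  refine Finset.sum_congr rfl fun j _ => ?_
  rw [Finset.sum_comm]
  simp_rw [← Finset.mul_sum, hM]
  simp
  ring

theorem parity (hM : ∀ i j : Fin 16, M i j = 1 ∨ M i j = -1) (hs : ∀ j, s j = 0 ∨ s j = 1 ∨ s j = -1) (i : Fin 16) :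
    (∑ j, M i j * s j) % 2 = (∑ j, s j ^ 2) % 2 := by
  have h : (2 : ℤ) ∣ ∑ j, (M i j * s j - s j ^ 2) := by
    refine Finset.dvd_sum fun j _ => ?_
    rcases hM i j with h | h <;> rcases hs j with h' | h' | h' <;> rw [h, h'] <;> norm_num
  rw [Finset.sum_sub_distrib] at h
  omega

theorem abs_le (hM : ∀ i j : Fin 16, M i j = 1 ∨ M i j = -1) (hs : ∀ j, s j = 0 ∨ s j = 1 ∨ s j = -1) (i : Fin 16) :
    |∑ j, M i j * s j| ≤ ∑ j, s j ^ 2 := by
  refine (Finset.abs_sum_le_sum_abs _ _).trans (Finset.sum_le_sum fun j _ => ?_)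
  rcases hM i j with h | h <;> rcases hs j with h' | h' | h' <;> rw [h, h'] <;> norm_num

end general

/-- sum over `Fin 16` of a termwise inequality -/
theorem sum_ineq (X : Fin 16 → ℤ) (c d : ℤ) (h : ∀ i, c * |X i| ≤ X i ^ 2 + d) :
    c * ∑ i, |X i| ≤ ∑ i, X i ^ 2 + 16 * d := by
  rw [Finset.mul_sum]
  refine (Finset.sum_le_sum fun i _ => h i).trans ?_
  rw [Finset.sum_add_distrib]
  simp

theorem quad_even (x : ℤ) (hx : x % 2 = 0) : 6 * |x| ≤ x ^ 2 + 8 ∧ 2 * |x| ≤ x ^ 2 ∧ 10 * |x| ≤ x ^ 2 + 24 := by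
  obtain ⟨y, rfl⟩ : ∃ y, x = 2 * y := ⟨x / 2, by omega⟩
  have h1 : |2 * y| = 2 * |y| := by rw [abs_mul]; norm_num
  have h2 : (2 * y) ^ 2 = 4 * |y| ^ 2 := by rw [sq_abs]; ring
  rw [h1, h2]
  have h0 := abs_nonneg y
  generalize |y| = z at *
  refine ⟨?_, ?_, ?_⟩
  · rcases le_or_gt z 1 with h | h
    · nlinarith
    · nlinarith
  · rcases le_or_gt z 0 with h | h
    · nlinarith
    · nlinarith
  · rcases le_or_gt z 2 with h | h
    · nlinarith
    · nlinarith

theorem quad_odd (x : ℤ) (hx : x % 2 = 1) : 8 * |x| ≤ x ^ 2 + 15 ∧ 4 * |x| ≤ x ^ 2 + 3 ∧ 1 ≤ |x| := by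
  have h2 : x ^ 2 = |x| ^ 2 := by rw [sq_abs]
  have h3 : |x| % 2 = 1 := by
    rcases abs_cases x with ⟨h, _⟩ | ⟨h, _⟩ <;> omega
  rw [h2]
  have h0 := abs_nonneg x
  generalize |x| = z at *
  obtain ⟨y, rfl⟩ : ∃ y, z = 2 * y + 1 := ⟨z / 2, by omega⟩
  refine ⟨?_, ?_, by omega⟩
  · rcases le_or_gt y 1 with h | h
    · nlinarith
    · nlinarith
  · rcases le_or_gt y 0 with h | h
    · nlinarith
    · nlinarith

theorem abs_parity (x : ℤ) : |x| % 2 = x % 2 := by
  rcases abs_cases x with ⟨h, _⟩ | ⟨h, _⟩ <;> omega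

theorem sum_even (X : Fin 16 → ℤ) (S : Finset (Fin 16)) (h : ∀ i, X i % 2 = 0) : (∑ i ∈ S, |X i|) % 2 = 0 := by
  have : (2 : ℤ) ∣ ∑ i ∈ S, |X i| := by
    refine Finset.dvd_sum fun i _ => ?_
    have := abs_parity (X i)
    have := h i
    omega
  omega

theorem sum_odd (X : Fin 16 → ℤ) (h : ∀ i, X i % 2 = 1) : (∑ i, |X i|) % 2 = 0 := by
  have h' : (2 : ℤ) ∣ ∑ i : Fin 16, (|X i| - 1) := by
    refine Finset.dvd_sum fun i _ => ?_
    have := abs_parity (X i)
    have := h i
    omega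
  rw [Finset.sum_sub_distrib] at h'
  simp at h'
  omega

/-! ### Supports of size 9 -/

/-- the norm of `B t` for a vector `t` with 9 non-zero entries is at most 44 -/
theorem nine {M : Fin 16 → Fin 16 → ℤ} (hs : ∀ i j : Fin 16, M i j = 1 ∨ M i j = -1)
    (hcol : ∀ j j' : Fin 16, ∑ i, M i j * M i j' = if j = j' then 16 else 0)
    (hrow : ∀ j j' : Fin 16, ∑ i, M j i * M j' i = if j = j' then 16 else 0)
    {t : Fin 16 → ℤ} (ht : ∀ j, t j = 0 ∨ t j = 1 ∨ t j = -1) (h9 : ∑ j, t j ^ 2 = 9) :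
    ∑ i, |∑ j, M i j * t j| ≤ 44 := by
  by_contra hcon
  push Not at hcon
  set Y : Fin 16 → ℤ := fun i => ∑ j, M i j * t j with hY
  have hYdef : ∀ i, ∑ j, M i j * t j = Y i := fun i => rfl
  have hodd : ∀ i, Y i % 2 = 1 := by
    intro i
    have := parity hs ht i
    rw [h9] at this
    rw [← hYdef]
    omega
  have hN : 46 ≤ ∑ i, |Y i| := by
    have := sum_odd Y hodd
    have h' : 44 < ∑ i, |Y i| := hcon
    omega
  have hsq : ∑ i, Y i ^ 2 = 144 := by
    have := sum_sq (s := t) hcol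
    rw [h9] at this
    simpa using this
  -- the error vector
  have hf : ∀ i, ∃ f : ℤ, Y i = 3 * Int.sign (Y i) + 2 * f ∧ 4 * f ^ 2 = Y i ^ 2 - 6 * |Y i| + 9 := by
    intro i
    have hne : Y i ≠ 0 := by have := hodd i; omega
    rcases lt_or_gt_of_ne hne with h | h
    · refine ⟨(Y i + 3) / 2, ?_, ?_⟩
      · rw [Int.sign_eq_neg_one_of_neg h]; have := hodd i; omega
      · have : 2 * ((Y i + 3) / 2) = Y i + 3 := by have := hodd i; omega
        have h4 : 4 * ((Y i + 3) / 2) ^ 2 = (2 * ((Y i + 3) / 2)) ^ 2 := by ring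
        rw [h4, this, abs_of_neg h]; ring
    · refine ⟨(Y i - 3) / 2, ?_, ?_⟩
      · rw [Int.sign_eq_one_of_pos h]; have := hodd i; omega
      · have : 2 * ((Y i - 3) / 2) = Y i - 3 := by have := hodd i; omega
        have h4 : 4 * ((Y i - 3) / 2) ^ 2 = (2 * ((Y i - 3) / 2)) ^ 2 := by ring
        rw [h4, this, abs_of_pos h]; ring
  choose f hf1 hf2 using hf
  have hfs : ∑ i, f i ^ 2 ≤ 3 := by
    have h1 : ∑ i, 4 * f i ^ 2 = ∑ i, (Y i ^ 2 - 6 * |Y i| + 9) := Finset.sum_congr rfl fun i _ => hf2 i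
    rw [← Finset.mul_sum, Finset.sum_add_distrib, Finset.sum_sub_distrib, ← Finset.mul_sum, hsq] at h1
    simp at h1
    omega
  have hf3 : ∀ i, f i = 0 ∨ f i = 1 ∨ f i = -1 := by
    intro i
    have h1 : f i ^ 2 ≤ 3 := (Finset.single_le_sum (f := fun i => f i ^ 2) (fun i _ => sq_nonneg _) (mem_univ i)).trans hfs
    have h2 : f i < 2 := by nlinarith
    have h3 : -2 < f i := by nlinarith
    omega
  -- the transform of the error vector
  set w : Fin 16 → ℤ := fun j => ∑ i, M i j * f i with hw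
  have hwdef : ∀ j, ∑ i, M i j * f i = w j := fun j => rfl
  have hinv : ∀ j, ∑ i, M i j * Y i = 16 * t j := by
    intro j
    have h1 : ∀ i, M i j * Y i = ∑ j', t j' * (M i j * M i j') := by
      intro i
      rw [← hYdef, Finset.mul_sum]
      refine Finset.sum_congr rfl fun j' _ => by ring
    simp_rw [h1]
    rw [Finset.sum_comm]
    simp_rw [← Finset.mul_sum, hcol]
    simp
    ring
  have hmod : ∀ j, (3 : ℤ) ∣ t j - 2 * w j := by
    intro j
    have h1 : ∑ i, M i j * Y i = 3 * (∑ i, M i j * Int.sign (Y i)) + 2 * w j := by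
      rw [← hwdef, Finset.mul_sum, Finset.mul_sum, ← Finset.sum_add_distrib]
      refine Finset.sum_congr rfl fun i _ => ?_
      conv_lhs => rw [hf1 i]
      ring
    rw [hinv] at h1
    omega
  have hwsq : ∑ j, w j ^ 2 = 16 * ∑ i, f i ^ 2 := by
    have := sum_sq (M := fun i j => M j i) (s := f) (by simpa using hrow)
    simpa using this
  have hwle : ∀ j, |w j| ≤ ∑ i, f i ^ 2 := fun j => by
    have := abs_le (M := fun i j => M j i) (s := f) (fun i j => hs j i) hf3 j
    simpa using this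
  have hwpar : ∀ j, w j % 2 = (∑ i, f i ^ 2) % 2 := fun j => by
    have := parity (M := fun i j => M j i) (s := f) (fun i j => hs j i) hf3 j
    simpa using this
  have hm0 : 0 ≤ ∑ i, f i ^ 2 := Finset.sum_nonneg fun i _ => sq_nonneg _
  generalize hm : ∑ i, f i ^ 2 = m at *
  have hcase : m = 0 ∨ m = 1 ∨ m = 2 ∨ m = 3 := by omega
  rcases hcase with rfl | rfl | rfl | rfl
  · -- no error
    have h0 : ∀ j, w j = 0 := fun j => abs_eq_zero.mp (le_antisymm (hwle j) (abs_nonneg _))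
    have : ∑ j, t j ^ 2 = 0 := by
      refine Finset.sum_eq_zero fun j _ => ?_
      have h1 := hmod j
      rw [h0 j] at h1
      rcases ht j with h | h | h <;> rw [h] at h1 ⊢ <;> first | (exfalso; omega) | norm_num
    omega
  · -- all `w j` odd of absolute value 1
    have : ∑ j, t j ^ 2 = ∑ j : Fin 16, 1 := by
      refine Finset.sum_congr rfl fun j _ => ?_
      have h1 := hmod j
      have h2 := hwle j
      have h3 := hwpar j
      rw [_root_.abs_le] at h2
      rcases ht j with h | h | h <;> rw [h] at h1 ⊢ <;> norm_num at h1 ⊢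
      omega
    rw [h9] at this
    simp at this
  · have : ∑ j, 4 * t j ^ 2 = ∑ j, w j ^ 2 := by
      refine Finset.sum_congr rfl fun j _ => ?_
      have h1 := hmod j
      have h2 := hwle j
      have h3 := hwpar j
      rw [_root_.abs_le] at h2
      have h4 : w j = -2 ∨ w j = 0 ∨ w j = 2 := by omega
      rcases ht j with h | h | h <;> rcases h4 with h' | h' | h' <;> rw [h, h'] at h1 ⊢ <;>
        first | (exfalso; omega) | norm_num
    rw [← Finset.mul_sum, h9, hwsq] at this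
    omega
  · have : ∑ j, w j ^ 2 = ∑ j, (9 - 8 * t j ^ 2) := by
      refine Finset.sum_congr rfl fun j _ => ?_
      have h1 := hmod j
      have h2 := hwle j
      have h3 := hwpar j
      rw [_root_.abs_le] at h2
      have h4 : w j = -3 ∨ w j = -1 ∨ w j = 1 ∨ w j = 3 := by omega
      rcases ht j with h | h | h <;> rcases h4 with h' | h' | h' | h' <;> rw [h, h'] at h1 ⊢ <;>
        first | (exfalso; omega) | norm_num
    rw [Finset.sum_sub_distrib, ← Finset.mul_sum, h9, hwsq] at this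
    simp at this

/-! ### Supports of size 6 and 12 -/

theorem mod_four {S : Finset (Fin 16)} {g : Fin 16 → ℤ} (hg : ∀ j ∈ S, g j = 1 ∨ g j = -1) :
    (∏ j ∈ S, g j = 1 ∨ ∏ j ∈ S, g j = -1) ∧ (4 : ℤ) ∣ ∑ j ∈ S, g j - S.card + 1 - ∏ j ∈ S, g j := by
  classical
  induction S using Finset.induction_on with
  | empty => simp
  | insert a S ha ih =>
    obtain ⟨h1, h2⟩ := ih fun j hj => hg j (Finset.mem_insert_of_mem hj)
    rw [Finset.sum_insert ha, Finset.prod_insert ha, Finset.card_insert_of_notMem ha]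
    push_cast
    rcases hg a (Finset.mem_insert_self a S) with h | h <;> rcases h1 with h' | h' <;> rw [h, h'] <;>
      rw [h'] at h2 <;> refine ⟨by norm_num, ?_⟩ <;> omega

theorem A_prod (S : Finset (Fin 16)) : ∃ c, ∀ i, ∏ j ∈ S, A i j = A i c := by
  classical
  induction S using Finset.induction_on with
  | empty =>
    have h : ∀ i, 1 = A i 0 := by decide +kernel
    exact ⟨0, fun i => by rw [Finset.prod_empty]; exact h i⟩
  | insert a S ha ih =>
    obtain ⟨c, hc⟩ := ih
    obtain ⟨d, hd⟩ := A_mul a c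
    exact ⟨d, fun i => by rw [Finset.prod_insert ha, hc i, hd i]⟩

/-- modulo 4 the vector `A s` is a constant plus a column of `A` up to sign -/
theorem A_mod {s : Fin 16 → ℤ} (hs : ∀ j, s j = 0 ∨ s j = 1 ∨ s j = -1) :
    ∃ p : Fin 16 → ℤ, (∀ i, p i = 1 ∨ p i = -1) ∧ (∑ i, p i = 16 ∨ ∑ i, p i = 0 ∨ ∑ i, p i = -16) ∧
      ∀ i, (4 : ℤ) ∣ ∑ j, A i j * s j - ∑ j, s j ^ 2 + 1 - p i := by
  classical
  set S : Finset (Fin 16) := univ.filter fun j => s j ≠ 0 with hS
  have hs' : ∀ j ∈ S, s j = 1 ∨ s j = -1 := by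
    intro j hj
    rw [hS, Finset.mem_filter] at hj
    rcases hs j with h | h | h
    · exact absurd h hj.2
    · exact Or.inl h
    · exact Or.inr h
  have hcard : ∑ j, s j ^ 2 = (S.card : ℤ) := by
    rw [hS, Finset.card_filter]
    push_cast
    refine Finset.sum_congr rfl fun j _ => ?_
    rcases hs j with h | h | h <;> rw [h] <;> norm_num
  have hsum : ∀ i, ∑ j, A i j * s j = ∑ j ∈ S, A i j * s j := by
    intro i
    rw [hS, Finset.sum_filter]
    refine Finset.sum_congr rfl fun j _ => ?_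
    rcases hs j with h | h | h <;> rw [h] <;> norm_num
  obtain ⟨c, hc⟩ := A_prod S
  have hg : ∀ i, ∀ j ∈ S, A i j * s j = 1 ∨ A i j * s j = -1 := by
    intro i j hj
    rcases mat_sign rowsA i j with h | h <;> rcases hs' j hj with h' | h' <;>
      (change A i j = _ at h; rw [h, h']; norm_num)
  have hpi := (mod_four (S := S) (g := s) hs').1
  refine ⟨fun i => ∏ j ∈ S, A i j * s j, fun i => (mod_four (hg i)).1, ?_, fun i => ?_⟩
  · have : ∑ i, ∏ j ∈ S, A i j * s j = (∑ i, A i c) * ∏ j ∈ S, s j := by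
      rw [Finset.sum_mul]
      refine Finset.sum_congr rfl fun i _ => ?_
      rw [Finset.prod_mul_distrib, hc i]
    rw [this]
    rcases A_sum c with h | h <;> rcases hpi with h' | h' <;> rw [h, h'] <;> norm_num
  · rw [hsum, hcard]
    exact (mod_four (hg i)).2

/-- the extremal situation for supports of size 6 and 12 -/
theorem extremal {s : Fin 16 → ℤ} (hs : ∀ j, s j = 0 ∨ s j = 1 ∨ s j = -1) {r : Fin 16}
    (hk : ∑ j, s j ^ 2 = 6 ∨ ∑ j, s j ^ 2 = 12) (h0 : ∑ j, A r j * s j = 0)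
    (h : ∀ i, i ≠ r → |∑ j, A i j * s j| = 2 ∨ |∑ j, A i j * s j| = 4)
    (hN : 6 * ∑ i ∈ univ.erase r, |∑ j, A i j * s j| = 16 * ∑ j, s j ^ 2 + 120) : False := by
  obtain ⟨p, hp, hsum, hdvd⟩ := A_mod hs
  have hsplit : ∑ i, p i = p r + ∑ i ∈ univ.erase r, p i := by
    rw [Finset.add_sum_erase _ _ (mem_univ r)]
  have hr := hdvd r
  rw [h0] at hr
  rcases hk with hk | hk
  · rw [hk] at hr hN
    have h1 : ∀ i ∈ univ.erase r, p i = 3 - |∑ j, A i j * s j| := by
      intro i hi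
      have h2 := hdvd i
      rw [hk] at h2
      rcases h i (Finset.ne_of_mem_erase hi) with h3 | h3 <;> rw [h3] <;> rcases hp i with h4 | h4 <;> rw [h4] at h2 ⊢
        <;> norm_num <;>
      · rcases abs_cases (∑ j, A i j * s j) with ⟨h5, _⟩ | ⟨h5, _⟩ <;> omega
    rw [hsplit, Finset.sum_congr rfl h1, Finset.sum_sub_distrib] at hsum
    simp only [Finset.sum_const, Finset.card_erase_of_mem (mem_univ r), Finset.card_univ, Fintype.card_fin] at hsum
    have h16 : ((16 - 1 : ℕ) • (3 : ℤ)) = 45 := by norm_num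
    rw [h16] at hsum
    rcases hp r with h4 | h4 <;> rw [h4] at hsum hr <;> omega
  · rw [hk] at hr hN
    have h1 : ∀ i ∈ univ.erase r, p i = |∑ j, A i j * s j| - 3 := by
      intro i hi
      have h2 := hdvd i
      rw [hk] at h2
      rcases h i (Finset.ne_of_mem_erase hi) with h3 | h3 <;> rw [h3] <;> rcases hp i with h4 | h4 <;> rw [h4] at h2 ⊢
        <;> norm_num <;>
      · rcases abs_cases (∑ j, A i j * s j) with ⟨h5, _⟩ | ⟨h5, _⟩ <;> omega
    rw [hsplit, Finset.sum_congr rfl h1, Finset.sum_sub_distrib] at hsum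
    simp only [Finset.sum_const, Finset.card_erase_of_mem (mem_univ r), Finset.card_univ, Fintype.card_fin] at hsum
    have h16 : ((16 - 1 : ℕ) • (3 : ℤ)) = 45 := by norm_num
    rw [h16] at hsum
    rcases hp r with h4 | h4 <;> rw [h4] at hsum hr <;> omega

/-! ### The upper bound -/

theorem A_sign (i j : Fin 16) : A i j = 1 ∨ A i j = -1 := mat_sign rowsA i j

theorem B_sign (i j : Fin 16) : B i j = 1 ∨ B i j = -1 := mat_sign rowsB i j

theorem erase_quad (X : Fin 16 → ℤ) (h : ∀ i, X i % 2 = 0) (r : Fin 16) :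
    6 * ∑ i ∈ univ.erase r, |X i| + X r ^ 2 ≤ ∑ i, X i ^ 2 + 120 := by
  rw [← Finset.add_sum_erase _ (fun i => X i ^ 2) (mem_univ r)]
  have : 6 * ∑ i ∈ univ.erase r, |X i| ≤ ∑ i ∈ univ.erase r, X i ^ 2 + 120 := by
    rw [Finset.mul_sum]
    refine (Finset.sum_le_sum fun i _ => (quad_even (X i) (h i)).1).trans ?_
    rw [Finset.sum_add_distrib]
    simp
  linarith

/-- supports of size 6 or 12 with the row `r` deleted -/
theorem special {s : Fin 16 → ℤ} (hs : ∀ j, s j = 0 ∨ s j = 1 ∨ s j = -1) (r : Fin 16)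
    (hk : ∑ j, s j ^ 2 = 6 ∨ ∑ j, s j ^ 2 = 12) :
    6 * ∑ i ∈ univ.erase r, |∑ j, A i j * s j| < 16 * ∑ j, s j ^ 2 + 120 := by
  by_contra hcon
  push Not at hcon
  set X : Fin 16 → ℤ := fun i => ∑ j, A i j * s j with hX
  have hXdef : ∀ i, ∑ j, A i j * s j = X i := fun i => rfl
  have hev : ∀ i, X i % 2 = 0 := by
    intro i
    have := parity A_sign hs i
    rw [hXdef] at this
    omega
  have hsq : ∑ i, X i ^ 2 = 16 * ∑ j, s j ^ 2 := sum_sq (s := s) A_cols
  have h1 := erase_quad X hev r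
  have hcon' : 16 * ∑ j, s j ^ 2 + 120 ≤ 6 * ∑ i ∈ univ.erase r, |X i| := hcon
  have h2 := sq_nonneg (X r)
  have h3 : X r ^ 2 = 0 := by linarith
  have h4 : X r = 0 := by simpa using h3
  have h5 : 6 * ∑ i ∈ univ.erase r, |X i| = 16 * ∑ j, s j ^ 2 + 120 := by linarith
  refine extremal hs hk h4 (fun i hi => ?_) h5
  have h6 : ∑ i ∈ univ.erase r, (X i ^ 2 + 8 - 6 * |X i|) = 0 := by
    rw [Finset.sum_sub_distrib, ← Finset.mul_sum, h5, Finset.sum_add_distrib]
    rw [← Finset.add_sum_erase _ (fun i => X i ^ 2) (mem_univ r)] at hsq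
    rw [h3] at hsq
    have : ∑ i ∈ univ.erase r, (8 : ℤ) = 120 := by simp
    rw [this]
    linarith
  have h7 := (Finset.sum_eq_zero_iff_of_nonneg fun i _ => by linarith [(quad_even (X i) (hev i)).1]).mp h6 i
    (Finset.mem_erase.mpr ⟨hi, mem_univ i⟩)
  have h8 : (|X i| - 2) * (|X i| - 4) = 0 := by
    have := sq_abs (X i)
    nlinarith
  rcases mul_eq_zero.mp h8 with h | h
  · left; change |X i| = 2; omega
  · right; change |X i| = 4; omega

/-- the heart of the upper bound -/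
theorem core {s t : Fin 16 → ℤ} (hs : ∀ j, s j = 0 ∨ s j = 1 ∨ s j = -1) (ht : ∀ j, t j = 0 ∨ t j = 1 ∨ t j = -1)
    (hst : ∀ j, s j ^ 2 + t j ^ 2 = 1) (r : Fin 16) :
    ∑ i ∈ univ.erase r, |∑ j, A i j * s j| + ∑ i, |∑ j, B i j * t j| ≤ 83 := by
  have hk0 : 0 ≤ ∑ j, s j ^ 2 := Finset.sum_nonneg fun j _ => sq_nonneg _
  have hk1 : 0 ≤ ∑ j, t j ^ 2 := Finset.sum_nonneg fun j _ => sq_nonneg _
  have hkt : ∑ j, s j ^ 2 + ∑ j, t j ^ 2 = 16 := by
    rw [← Finset.sum_add_distrib, Finset.sum_congr rfl fun j _ => hst j]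
    simp
  have hsp := special hs r
  have hn1 := fun h => nine A_sign A_cols (by decide +kernel) hs h
  have hn2 := fun h => nine B_sign B_cols B_rows ht h
  have hXs : ∑ i, (∑ j, A i j * s j) ^ 2 = 16 * ∑ j, s j ^ 2 := sum_sq (s := s) A_cols
  have hYs : ∑ i, (∑ j, B i j * t j) ^ 2 = 16 * ∑ j, t j ^ 2 := sum_sq (s := t) B_cols
  have hXp := parity A_sign hs
  have hYp := parity B_sign ht
  generalize hX : (fun i => ∑ j, A i j * s j) = X at *
  generalize hY : (fun i => ∑ j, B i j * t j) = Y at *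
  have hX' : ∀ i, ∑ j, A i j * s j = X i := fun i => by rw [← hX]
  have hY' : ∀ i, ∑ j, B i j * t j = Y i := fun i => by rw [← hY]
  simp only [hX', hY'] at *
  generalize ∑ j, s j ^ 2 = k at *
  generalize ∑ j, t j ^ 2 = l at *
  have hsplit : ∑ i, |X i| = |X r| + ∑ i ∈ univ.erase r, |X i| := by
    rw [Finset.add_sum_erase _ (fun i => |X i|) (mem_univ r)]
  have habs := abs_nonneg (X r)
  rcases Int.emod_two_eq_zero_or_one k with hpar | hpar
  · have hXe : ∀ i, X i % 2 = 0 := fun i => by rw [hXp i]; exact hpar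
    have hYe : ∀ i, Y i % 2 = 0 := fun i => by rw [hYp i]; omega
    have e1 := sum_ineq X 6 8 fun i => (quad_even _ (hXe i)).1
    have e2 := sum_ineq X 2 0 fun i => by simpa using (quad_even _ (hXe i)).2.1
    have e3 := sum_ineq X 10 24 fun i => (quad_even _ (hXe i)).2.2
    have e4 := sum_ineq Y 6 8 fun i => (quad_even _ (hYe i)).1
    have e5 := sum_ineq Y 2 0 fun i => by simpa using (quad_even _ (hYe i)).2.1
    have e6 := sum_ineq Y 10 24 fun i => (quad_even _ (hYe i)).2.2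
    have e7 := erase_quad X hXe r
    have e8 := sum_even X (univ.erase r) hXe
    have e9 := sum_even Y univ hYe
    have e10 := sq_nonneg (X r)
    rw [hXs] at e1 e2 e3 e7
    rw [hYs] at e4 e5 e6
    generalize X r ^ 2 = q at *
    generalize ∑ i ∈ univ.erase r, |X i| = N at *
    generalize ∑ i, |Y i| = N' at *
    clear hn1 hn2 hXs hYs
    obtain rfl : l = 16 - k := by omega
    by_cases h6 : k = 6
    · have := hsp (Or.inl h6)
      omega
    by_cases h12 : k = 12
    · have := hsp (Or.inr h12)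
      omega
    clear hsp
    have : k ≤ 16 := by omega
    interval_cases k <;> omega
  · have hXo : ∀ i, X i % 2 = 1 := fun i => by rw [hXp i]; exact hpar
    have hYo : ∀ i, Y i % 2 = 1 := fun i => by rw [hYp i]; omega
    have e1 := sum_ineq X 8 15 fun i => (quad_odd _ (hXo i)).1
    have e2 := sum_ineq X 4 3 fun i => (quad_odd _ (hXo i)).2.1
    have e3 := sum_ineq Y 8 15 fun i => (quad_odd _ (hYo i)).1
    have e4 := sum_ineq Y 4 3 fun i => (quad_odd _ (hYo i)).2.1
    have e5 := (quad_odd _ (hXo r)).2.2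
    rw [hXs] at e1 e2
    rw [hYs] at e3 e4
    generalize ∑ i ∈ univ.erase r, |X i| = N at *
    generalize ∑ i, |Y i| = N' at *
    clear hXs hYs hsp
    obtain rfl : l = 16 - k := by omega
    by_cases h7 : k = 7
    · have := hn2 (by omega)
      omega
    by_cases h9 : k = 9
    · have := hn1 (by omega)
      omega
    clear hn1 hn2
    have : k ≤ 16 := by omega
    interval_cases k <;> omega

/-! ### The matrix of order 32 -/

/-- the matrix `[[A, A], [B, -B]]` -/
def H : Matrix (Fin 32) (Fin 32) ℤ := fun i j =>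
  if i.val < 16 then A (Fin.ofNat 16 i.val) (Fin.ofNat 16 j.val)
  else if j.val < 16 then B (Fin.ofNat 16 i.val) (Fin.ofNat 16 j.val)
  else -B (Fin.ofNat 16 i.val) (Fin.ofNat 16 j.val)

theorem H_hadamard : IsHadamard H := by
  constructor
  · intro i j
    unfold H
    split_ifs
    · exact A_sign _ _
    · exact B_sign _ _
    · rcases B_sign (Fin.ofNat 16 i.val) (Fin.ofNat 16 j.val) with h | h <;> rw [h] <;> norm_num
  · have h : ∀ i j : Fin 32, (∑ k, H i k * H j k) = if i = j then 32 else 0 := by decide +kernel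
    ext i j
    rw [Matrix.mul_apply]
    simp only [Matrix.transpose_apply, Matrix.smul_apply, smul_eq_mul, Matrix.one_apply]
    rw [h i j]
    split_ifs <;> simp

theorem H11 : ∀ i j : Fin 16, H (Fin.castAdd 16 i) (Fin.castAdd 16 j) = A i j := by decide +kernel

theorem H12 : ∀ i j : Fin 16, H (Fin.castAdd 16 i) (Fin.natAdd 16 j) = A i j := by decide +kernel

theorem H21 : ∀ i j : Fin 16, H (Fin.natAdd 16 i) (Fin.castAdd 16 j) = B i j := by decide +kernel

theorem H22 : ∀ i j : Fin 16, H (Fin.natAdd 16 i) (Fin.natAdd 16 j) = -B i j := by decide +kernel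

theorem split (f : Fin 32 → ℤ) :
    ∑ i, f i = ∑ i : Fin 16, f (Fin.castAdd 16 i) + ∑ i : Fin 16, f (Fin.natAdd 16 i) :=
  Fin.sum_univ_add (a := 16) (b := 16) f

theorem top_le (r : Fin 16) {x : ℤ} (hx : x ∈ values H (Fin.castAdd 16 r)) : x ≤ 166 := by
  obtain ⟨a, ha, rfl⟩ := hx
  -- pass to the column signs
  obtain ⟨b, hb, hb'⟩ : ∃ b : Fin 32 → ℤ, (∀ j, b j = 1 ∨ b j = -1) ∧
      ∀ j, |∑ i ∈ univ.erase (Fin.castAdd 16 r), H i j * a i| =
        b j * ∑ i ∈ univ.erase (Fin.castAdd 16 r), H i j * a i := by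
    refine ⟨fun j => if 0 ≤ ∑ i ∈ univ.erase (Fin.castAdd 16 r), H i j * a i then 1 else -1, ?_, ?_⟩
    · intro j
      simp only
      split_ifs <;> simp
    · intro j
      simp only
      split_ifs with h
      · rw [abs_of_nonneg h]; ring
      · rw [abs_of_neg (not_le.mp h)]; ring
  have h1 : ∑ j, |∑ i ∈ univ.erase (Fin.castAdd 16 r), H i j * a i| =
      ∑ i ∈ univ.erase (Fin.castAdd 16 r), a i * ∑ j, H i j * b j := by
    rw [Finset.sum_congr rfl fun j _ => hb' j]
    simp_rw [Finset.mul_sum]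
    rw [Finset.sum_comm]
    refine Finset.sum_congr rfl fun i _ => Finset.sum_congr rfl fun j _ => by ring
  have h2 : ∑ i ∈ univ.erase (Fin.castAdd 16 r), a i * ∑ j, H i j * b j ≤
      ∑ i ∈ univ.erase (Fin.castAdd 16 r), |∑ j, H i j * b j| := by
    refine Finset.sum_le_sum fun i _ => ?_
    rcases ha i with h | h <;> rw [h]
    · rw [one_mul]; exact le_abs_self _
    · rw [neg_one_mul]; exact neg_le_abs _
  -- split the columns
  have hst : ∀ j : Fin 16, ∃ s t : ℤ, (s = 0 ∨ s = 1 ∨ s = -1) ∧ (t = 0 ∨ t = 1 ∨ t = -1) ∧ s ^ 2 + t ^ 2 = 1 ∧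
      b (Fin.castAdd 16 j) = s + t ∧ b (Fin.natAdd 16 j) = s - t := by
    intro j
    rcases hb (Fin.castAdd 16 j) with h | h <;> rcases hb (Fin.natAdd 16 j) with h' | h' <;> rw [h, h']
    · exact ⟨1, 0, by norm_num⟩
    · exact ⟨0, 1, by norm_num⟩
    · exact ⟨0, -1, by norm_num⟩
    · exact ⟨-1, 0, by norm_num⟩
  choose s t hs ht hst' hb1 hb2 using hst
  have htop : ∀ i : Fin 16, ∑ j, H (Fin.castAdd 16 i) j * b j = 2 * ∑ j, A i j * s j := by
    intro i
    rw [split, ← Finset.sum_add_distrib, Finset.mul_sum]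
    refine Finset.sum_congr rfl fun j _ => ?_
    rw [H11, H12, hb1, hb2]
    ring
  have hbot : ∀ i : Fin 16, ∑ j, H (Fin.natAdd 16 i) j * b j = 2 * ∑ j, B i j * t j := by
    intro i
    rw [split, ← Finset.sum_add_distrib, Finset.mul_sum]
    refine Finset.sum_congr rfl fun j _ => ?_
    rw [H21, H22, hb1, hb2]
    ring
  have h3 : |∑ j, H (Fin.castAdd 16 r) j * b j| + ∑ i ∈ univ.erase (Fin.castAdd 16 r), |∑ j, H i j * b j| =
      ∑ i, |∑ j, H i j * b j| :=
    Finset.add_sum_erase _ (fun i => |∑ j, H i j * b j|) (mem_univ _)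
  have h4 : ∑ i, |∑ j, H i j * b j| = 2 * ∑ i, |∑ j, A i j * s j| + 2 * ∑ i, |∑ j, B i j * t j| := by
    rw [split, Finset.mul_sum, Finset.mul_sum]
    congr 1
    · refine Finset.sum_congr rfl fun i _ => ?_
      rw [htop, abs_mul]; norm_num
    · refine Finset.sum_congr rfl fun i _ => ?_
      rw [hbot, abs_mul]; norm_num
  have h5 : |∑ j, A r j * s j| + ∑ i ∈ univ.erase r, |∑ j, A i j * s j| = ∑ i, |∑ j, A i j * s j| :=
    Finset.add_sum_erase _ (fun i => |∑ j, A i j * s j|) (mem_univ _)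
  have h6 : |∑ j, H (Fin.castAdd 16 r) j * b j| = 2 * |∑ j, A r j * s j| := by
    rw [htop, abs_mul]; norm_num
  have h7 := core hs ht hst' r
  rw [h1]
  linarith

theorem value_mem : (168 : ℤ) ∈ values H 28 := by
  refine ⟨fun i => if (4008597250 : ℕ).testBit i.val then -1 else 1, ?_, ?_⟩
  · intro i
    simp only
    split_ifs <;> simp
  · decide +kernel

/-- a trivial upper bound for the values -/
theorem bounded {n : ℕ} (M : Matrix (Fin n) (Fin n) ℤ) (r : Fin n) : BddAbove (values M r) := by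
  refine ⟨∑ j, ∑ i ∈ univ.erase r, |M i j|, ?_⟩
  rintro x ⟨a, ha, rfl⟩
  refine Finset.sum_le_sum fun j _ => (Finset.abs_sum_le_sum_abs _ _).trans (Finset.sum_le_sum fun i _ => ?_)
  rcases ha i with h | h <;> rw [h] <;> simp

theorem values_nonempty {n : ℕ} (M : Matrix (Fin n) (Fin n) ℤ) (r : Fin n) : (values M r).Nonempty :=
  ⟨_, fun _ => 1, fun _ => Or.inl rfl, rfl⟩

/-- There is a Hadamard matrix `H` of order 32 such that `C(H, r) ≤ 166` for each of its first 16 rows `r`, while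
`C(H, s) ≥ 168` for some row `s`; in particular `C(H, ·)` is not constant. -/
theorem result : ∃ H : Matrix (Fin 32) (Fin 32) ℤ, IsHadamard H ∧ (∀ r : Fin 32, r.val < 16 → C H r ≤ 166) ∧
    ∃ s : Fin 32, 168 ≤ C H s := by
  refine ⟨H, H_hadamard, fun r hr => ?_, 28, le_csSup (bounded H 28) value_mem⟩
  refine csSup_le (values_nonempty H r) fun x hx => ?_
  exact top_le ⟨r.val, hr⟩ hx

end Pool.Agent.Results.MP_ba6bee_co.OrderThirtyTwo
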